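import Mathlib
import Pool.Agent.TH773.PSet.Defs

/-!
# Sentences of the forcing language: cardinals, the dominating number, the polarized relation

The connectives and random forcing are those of `Pool.Agent.TH773.PSet.Defs`.
A name for a relation between ground model sets `X` and `Y` is a map sending `x`, `y` to the set
of the conditions attached to the pair. Named relations between `ℕ` and `ℕ` which are functions
stand for the elements of the Baire space of the extension.
-/

set_option autoImplicit false

namespace Pool.Agent.Q307.RF

open Cardinal Pool.Agent.TH773.PSet

universe u v w

variable {P : Type u} [Preorder P]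

/-- An absolute statement about ground model objects. -/
def fground (h : Prop) : Set P := {_p | h}

/-- The relation named by `R` is a function from `X` to `Y`. -/
def IsFun {X : Type v} {Y : Type w} (R : X → Y → Set P) : Set P :=
  fand (fall fun x => fex fun y => meets (R x y))
    (fall fun x => fall fun y => fall fun y' =>
      fimp (fand (meets (R x y)) (meets (R x y'))) (fground (y = y')))

/-- The relation named by `R` is injective. -/
def IsInj {X : Type v} {Y : Type w} (R : X → Y → Set P) : Set P :=
  fall fun x => fall fun x' => fall fun y =>
    fimp (fand (meets (R x y)) (meets (R x' y))) (fground (x = x'))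

/-- The relation named by `R` is onto `Y`. -/
def IsOnto {X : Type v} {Y : Type w} (R : X → Y → Set P) : Set P :=
  fall fun y => fex fun x => meets (R x y)

variable (P) in
/-- Every uncountable cardinal of the ground model is a cardinal of the extension: no function
from a set of smaller ground model cardinality `μ` to `ν` is onto. -/
def CardinalsPreserved : Set P :=
  fall fun μ : Cardinal.{v} => fall fun ν : Cardinal.{v} => fall fun _ : μ < ν =>
    fall fun _ : ℵ₀ < ν =>
      fnot (fex fun R : μ.out → ν.out → Set P => fand (IsFun R) (IsOnto R))

/-- The subset of `X` named by `A` has the same cardinality as `X`: some injective function from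
`X` to `X` only takes values in it. -/
def FullSize {X : Type v} (A : X → Set P) : Set P :=
  fex fun R : X → X → Set P =>
    fand (IsFun R) (fand (IsInj R)
      (fall fun x => fall fun y => fimp (meets (R x y)) (meets (A y))))

/-- `x(n) ≤ y(n)` for all but finitely many `n`. -/
def LeStar (x y : ℕ → ℕ → Set P) : Set P :=
  fex fun N : ℕ => fall fun n => fall fun _ : N ≤ n => fall fun a => fall fun b =>
    fimp (fand (meets (x n a)) (meets (y n b))) (fground (a ≤ b))

variable (P) in
/-- In the extension there is a dominating family which is indexed by `Y`. -/
def DomLe (Y : Type v) : Set P :=
  fex fun E : Y → ℕ → ℕ → Set P =>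
    fand (fall fun y => IsFun (E y))
      (fall fun x : ℕ → ℕ → Set P => fimp (IsFun x) (fex fun y => LeStar x (E y)))

variable (P) in
/-- In the extension the dominating number is `κ`: there is a dominating family of size `κ` and
none of smaller size. -/
def DomIs (κ : Cardinal.{v}) : Set P :=
  fand (DomLe P κ.out)
    (fall fun μ : Cardinal.{v} => fall fun _ : μ < κ => fnot (DomLe P μ.out))

variable (P) in
/-- The strong polarized relation of `K` and `ω` in the extension: for every colouring of
`K × ω` with two colours (named by `c`; a pair has colour `1` if it belongs to the set named by
`c`, and colour `0` otherwise) there are a subset `A` of `K` of the same size as `K` and an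
infinite subset `B` of `ω` such that all pairs in `A × B` have colour `1` or all of them have
colour `0`. -/
def Polarized (K : Type v) : Set P :=
  fall fun c : K → ℕ → Set P => fex fun A : K → Set P => fex fun B : RName P =>
    fand (FullSize A) (fand (Inf B)
      (disj
        (fall fun k => fall fun n => fimp (fand (meets (A k)) (meets (B n))) (meets (c k n)))
        (fall fun k => fall fun n =>
          fimp (fand (meets (A k)) (meets (B n))) (fnot (meets (c k n))))))

end Pool.Agent.Q307.RF
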