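import Mathlib
import Pool.Agent.TH773.PSet.Names
import Pool.Agent.Q307.RF.Defs

/-!
# Measure algebras: chain condition, preservation of cardinals, bounding of functions
-/

set_option autoImplicit false

namespace Pool.Agent.Q307.RF

open Cardinal Pool.Agent.TH773.PSet MeasureTheory Set Filter Topology

universe u v w

section Gen

variable {P : Type u} [Preorder P]

theorem down_meets (N : Set P) : Down (meets N) := (reg_meets N).1

theorem down_IsFun {X : Type v} {Y : Type w} (R : X → Y → Set P) : Down (IsFun R) :=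
  down_fand (down_fall fun _ => down_fnot _)
    (down_fall fun _ => down_fall fun _ => down_fall fun _ => down_fnot _)

theorem down_IsInj {X : Type v} {Y : Type w} (R : X → Y → Set P) : Down (IsInj R) :=
  down_fall fun _ => down_fall fun _ => down_fall fun _ => down_fnot _

theorem IsFun.total {X : Type v} {Y : Type w} {R : X → Y → Set P} {p : P} (h : p ∈ IsFun R)
    (x : X) : ∃ q ≤ p, ∃ y, q ∈ meets (R x y) := mem_fex.1 (h.1 x) p le_rfl

theorem IsFun.unique {X : Type v} {Y : Type w} {R : X → Y → Set P} {p : P} (h : p ∈ IsFun R)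
    {x : X} {y y' : Y} (h1 : p ∈ meets (R x y)) (h2 : p ∈ meets (R x y')) : y = y' := by
  obtain ⟨r, _, hr⟩ := mem_fimp.1 (h.2 x y y') p le_rfl ⟨h1, h2⟩
  exact hr

theorem IsInj.eq {X : Type v} {Y : Type w} {R : X → Y → Set P} {p : P} (h : p ∈ IsInj R)
    {x x' : X} {y : Y} (h1 : p ∈ meets (R x y)) (h2 : p ∈ meets (R x' y)) : x = x' := by
  obtain ⟨r, _, hr⟩ := mem_fimp.1 (h x x' y) p le_rfl ⟨h1, h2⟩
  exact hr

/-- the countable chain condition, for families of conditions -/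
def CCC (P : Type u) [Preorder P] : Prop :=
  ∀ (ι : Type v) (f : ι → P), ℵ₀ < #ι → ∃ i j, i ≠ j ∧ ∃ r, r ≤ f i ∧ r ≤ f j

theorem cardinalsPreserved_of_ccc (hcc : CCC.{u, v} P) (q : P) :
    q ∈ CardinalsPreserved.{u, v} P := by
  intro μ ν hμν hν q1 hq1 hex
  obtain ⟨q2, hq2, R, hfun, honto⟩ := mem_fex.1 hex q1 le_rfl
  let V : μ.out → Set ν.out := fun x => {y | ∃ r ≤ q2, r ∈ meets (R x y)}
  have hV : ∀ x, #(V x) ≤ ℵ₀ := by
    intro x
    by_contra hc
    rw [not_le] at hc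
    have hch : ∀ y : V x, ∃ r ≤ q2, r ∈ meets (R x y.1) := fun y => y.2
    choose f hf1 hf2 using hch
    obtain ⟨i, j, hij, r, hri, hrj⟩ := hcc (V x) f hc
    apply hij
    apply Subtype.ext
    have hr : r ∈ IsFun R := down_IsFun R _ hfun r (hri.trans (hf1 i))
    exact IsFun.unique hr (down_meets _ _ (hf2 i) r hri) (down_meets _ _ (hf2 j) r hrj)
  have hU : (⋃ x, V x) = Set.univ := by
    rw [Set.eq_univ_iff_forall]
    intro y
    obtain ⟨r, hr, x, h⟩ := mem_fex.1 (honto y) q2 le_rfl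
    exact Set.mem_iUnion.2 ⟨x, r, hr, h⟩
  have h1 : ν ≤ μ * ℵ₀ := by
    calc ν = #(ν.out) := (Cardinal.mk_out ν).symm
      _ = #(Set.univ : Set ν.out) := Cardinal.mk_univ.symm
      _ = #(⋃ x, V x) := by rw [hU]
      _ ≤ Cardinal.sum fun x => #(V x) := Cardinal.mk_iUnion_le_sum_mk
      _ ≤ Cardinal.sum fun _ : μ.out => ℵ₀ := Cardinal.sum_le_sum _ _ hV
      _ = μ * ℵ₀ := by
        rw [Cardinal.sum_const', Cardinal.mk_out]
  exact absurd h1 (not_le.2 (Cardinal.mul_lt_of_lt hν.le hμν hν))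

/-- A name for a subset of `X` of full size is not contained in a countable ground model set:
some condition below `p` forces some `y` outside `C` into it. -/
theorem exists_outside (hcc : CCC.{u, v} P) {X : Type v} (hX : ℵ₀ < #X) {A : X → Set P} {p : P}
    (hA : p ∈ FullSize A) {C : Set X} (hC : C.Countable) : ∃ q ≤ p, ∃ y, y ∉ C ∧ q ∈ meets (A y) := by
  obtain ⟨q, hq, R, hfun, hinj, hval⟩ := mem_fex.1 hA p le_rfl
  have h1 : ∀ x, ∃ r ≤ q, ∃ y, r ∈ meets (R x y) := fun x => mem_fex.1 (hfun.1 x) q le_rfl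
  choose r hr y hy using h1
  by_cases hcon : ∀ x, y x ∈ C
  · exfalso
    -- some fibre is uncountable
    obtain ⟨c, hc⟩ : ∃ c : C, ℵ₀ < #{x // y x = c.1} := by
      by_contra hno
      push Not at hno
      have h2 : (Set.univ : Set X).Countable := by
        have h3 : (Set.univ : Set X) = ⋃ c ∈ C, {x | y x = c} := by
          ext x
          simp [hcon x]
        rw [h3]
        exact hC.biUnion fun c hc => Cardinal.le_aleph0_iff_set_countable.1 (hno ⟨c, hc⟩)
      have h3 : #X ≤ ℵ₀ := by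
        rw [← Cardinal.mk_univ]
        exact Cardinal.le_aleph0_iff_set_countable.2 h2
      exact absurd h3 (not_le.2 hX)
    obtain ⟨i, j, hij, s, hsi, hsj⟩ := hcc _ (fun x : {x // y x = c.1} => r x.1) hc
    apply hij
    apply Subtype.ext
    have hs : s ∈ IsInj R := down_IsInj R _ hinj s (hsi.trans (hr i.1))
    refine IsInj.eq hs (y := c.1) ?_ ?_
    · have := down_meets _ _ (hy i.1) s hsi
      rwa [i.2] at this
    · have := down_meets _ _ (hy j.1) s hsj
      rwa [j.2] at this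
  · push Not at hcon
    obtain ⟨x, hx⟩ := hcon
    obtain ⟨s, hs, hs'⟩ := mem_fimp.1 (hval x (y x)) (r x) (hr x) (hy x)
    exact ⟨s, (hs.trans (hr x)).trans hq, y x, hx, hs'⟩

end Gen

section Meas

variable {Ω : Type u} [MeasurableSpace Ω] {μ : Measure Ω} [IsFiniteMeasure μ]

/-- A measure algebra satisfies the countable chain condition. -/
theorem ccc_cond : CCC.{u, v} (Cond μ) := by
  intro ι f hι
  by_contra hcon
  push Not at hcon
  have hnull : ∀ i j, i ≠ j → μ ((f i).1 ∩ (f j).1) = 0 := by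
    intro i j hij
    by_contra hne
    refine hcon i j hij (restr (f i) (f j).1 (f j).2.1 hne) (restr_le _ _ _ _) ?_
    rw [le_iff_AE]
    exact restr_mem _ _ _ _
  have h1 : Set.Countable {i | 0 < μ (f i).1} := by
    refine Measure.countable_meas_pos_of_disjoint_of_meas_iUnion_ne_top₀ μ
      (fun i => (f i).2.1.nullMeasurableSet) (fun i j hij => hnull i j hij) (measure_ne_top _ _)
  have h2 : {i | 0 < μ (f i).1} = Set.univ := by
    ext i
    simp [pos_iff_ne_zero, (f i).2.2]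
  rw [h2, ← Cardinal.le_aleph0_iff_set_countable, Cardinal.mk_univ] at h1
  exact absurd h1 (not_le.2 hι)

omit [IsFiniteMeasure μ] in
theorem meets_fground (h : Prop) : meets (fground (P := Cond μ) h) = fground h := by
  ext p
  constructor
  · intro hp
    obtain ⟨r, _, s, hs, _⟩ := hp p le_rfl
    exact hs
  · intro hp q hq
    exact ⟨q, le_rfl, q, hp, le_rfl⟩

omit [IsFiniteMeasure μ] in
theorem fground_AE (h : Prop) : fground (P := Cond μ) h = AE μ {_x | h} := by
  ext p
  rw [mem_AE_iff]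
  constructor
  · intro hp
    exact ae_of_all _ fun x _ => hp
  · intro hp
    by_contra hn
    refine p.2.2 (measure_eq_zero_iff_ae_notMem.2 ?_)
    filter_upwards [hp] with x hx h3 using hn (hx h3)

/-- Every name for a relation is represented by measurable sets. -/
theorem exists_rep2 (E : ℕ → ℕ → Set (Cond μ)) : ∃ X : ℕ → ℕ → Set Ω,
    (∀ n m, MeasurableSet (X n m)) ∧ ∀ n m, meets (E n m) = AE μ (X n m) := by
  choose X hX hX' using fun n => exists_rep (μ := μ) (E n)
  exact ⟨X, hX, hX'⟩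

theorem isFun_iff {E : ℕ → ℕ → Set (Cond μ)} {X : ℕ → ℕ → Set Ω}
    (hX : ∀ n m, MeasurableSet (X n m)) (hE : ∀ n m, meets (E n m) = AE μ (X n m)) (p : Cond μ) :
    p ∈ IsFun E ↔ ∀ᵐ x ∂μ, x ∈ p.1 → (∀ n, ∃ m, x ∈ X n m) ∧
      ∀ n m m', x ∈ X n m → x ∈ X n m' → m = m' := by
  have h1 : IsFun E = AE μ ({x | ∀ n, ∃ m, x ∈ X n m} ∩
      {x | ∀ n m m', x ∈ X n m → x ∈ X n m' → m = m'}) := by
    unfold IsFun
    have e1 : ∀ n : ℕ, (fex fun m => meets (E n m)) = AE μ (⋃ m, X n m) := fun n => by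
      simp only [hE]
      exact fex_AE fun m => hX n m
    have e2 : ∀ n m m' : ℕ, fimp (fand (meets (E n m)) (meets (E n m'))) (fground (m = m')) =
        AE μ ((X n m ∩ X n m')ᶜ ∪ {_x | m = m'}) := fun n m m' => by
      rw [hE, hE, fand_AE, fground_AE, fimp_AE ((hX _ _).inter (hX _ _)) (MeasurableSet.const _)]
    simp only [e1, e2, fall_AE, fand_AE]
    congr 1
    ext x
    simp only [mem_inter_iff, mem_iInter, mem_iUnion, mem_union, mem_compl_iff, mem_ofPred_eq]
    refine and_congr Iff.rfl ?_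
    refine forall_congr' fun n => forall_congr' fun m => forall_congr' fun m' => ?_
    tauto
  rw [h1, mem_AE_iff]
  rfl

theorem leStar_iff {E F : ℕ → ℕ → Set (Cond μ)} {X Y : ℕ → ℕ → Set Ω}
    (hX : ∀ n m, MeasurableSet (X n m)) (hE : ∀ n m, meets (E n m) = AE μ (X n m))
    (hY : ∀ n m, MeasurableSet (Y n m)) (hF : ∀ n m, meets (F n m) = AE μ (Y n m)) (p : Cond μ) :
    p ∈ LeStar E F ↔ ∀ᵐ x ∂μ, x ∈ p.1 → ∃ N, ∀ n, N ≤ n → ∀ a b, x ∈ X n a → x ∈ Y n b →
      a ≤ b := by
  have h1 : LeStar E F = AE μ {x | ∃ N, ∀ n, N ≤ n → ∀ a b, x ∈ X n a → x ∈ Y n b → a ≤ b} := by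
    unfold LeStar
    have e2 : ∀ n a b : ℕ, fimp (fand (meets (E n a)) (meets (F n b))) (fground (a ≤ b)) =
        AE μ ((X n a ∩ Y n b)ᶜ ∪ {_x | a ≤ b}) := fun n a b => by
      rw [hE, hF, fand_AE, fground_AE, fimp_AE ((hX _ _).inter (hY _ _)) (MeasurableSet.const _)]
    simp only [e2, fall_AE]
    rw [fex_AE fun N => MeasurableSet.iInter fun n => MeasurableSet.iInter fun _ =>
      MeasurableSet.iInter fun a => MeasurableSet.iInter fun b =>
        (((hX _ _).inter (hY _ _)).compl.union (MeasurableSet.const _))]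
    congr 1
    ext x
    simp only [mem_inter_iff, mem_iInter, mem_iUnion, mem_union, mem_compl_iff, mem_ofPred_eq]
    refine exists_congr fun N => forall_congr' fun n => forall_congr' fun _ =>
      forall_congr' fun a => forall_congr' fun b => ?_
    tauto
  rw [h1, mem_AE_iff]
  rfl

/-- Random forcing is bounding: every named function is bounded by a function of the ground
model at almost all places. -/
theorem exists_bound {E : ℕ → ℕ → Set (Cond μ)} {X : ℕ → ℕ → Set Ω}
    (hX : ∀ n m, MeasurableSet (X n m)) (hE : ∀ n m, meets (E n m) = AE μ (X n m)) {p : Cond μ}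
    (hp : p ∈ IsFun E) : ∃ h : ℕ → ℕ, ∀ᵐ x ∂μ, x ∈ p.1 → ∃ N, ∀ n, N ≤ n → ∀ a, x ∈ X n a →
      a ≤ h n := by
  rw [isFun_iff hX hE] at hp
  have h1 : ∀ n, ∃ M : ℕ, μ (p.1 \ ⋃ m ∈ Finset.range (M + 1), X n m) ≤ (2 : ENNReal)⁻¹ ^ n := by
    intro n
    let D : ℕ → Set Ω := fun M => p.1 \ ⋃ m ∈ Finset.range (M + 1), X n m
    have hD0 : μ (⋂ M, D M) = 0 := by
      refine measure_eq_zero_iff_ae_notMem.2 ?_
      filter_upwards [hp] with x hx hx'
      rw [mem_iInter] at hx'
      obtain ⟨m, hm⟩ := (hx (hx' 0).1).1 n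
      exact (hx' m).2 (mem_iUnion₂.2 ⟨m, Finset.mem_range.2 (Nat.lt_succ_self m), hm⟩)
    have ht : Tendsto (μ ∘ D) atTop (𝓝 0) := by
      rw [← hD0]
      refine tendsto_measure_iInter_atTop (fun M => ?_) ?_ ⟨0, measure_ne_top _ _⟩
      · exact (p.2.1.diff (Finset.measurableSet_biUnion _ fun m _ => hX n m)).nullMeasurableSet
      · intro M M' hMM x hx
        refine ⟨hx.1, fun h => hx.2 ?_⟩
        obtain ⟨m, hm, hxm⟩ := mem_iUnion₂.1 h
        exact mem_iUnion₂.2 ⟨m, Finset.mem_range.2 ((Finset.mem_range.1 hm).trans_le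
          (Nat.succ_le_succ hMM)), hxm⟩
    have hpos : 0 < (2 : ENNReal)⁻¹ ^ n := ENNReal.pow_pos (ENNReal.inv_pos.2 (by simp)) n
    obtain ⟨M, hM⟩ := (ht.eventually (ge_mem_nhds hpos)).exists
    exact ⟨M, hM⟩
  choose h hh using h1
  have hsum : ∑' n, μ (p.1 \ ⋃ m ∈ Finset.range (h n + 1), X n m) ≠ ⊤ := by
    refine ne_top_of_le_ne_top ?_ (ENNReal.tsum_le_tsum hh)
    rw [ENNReal.tsum_geometric]
    simp
  refine ⟨h, ?_⟩
  filter_upwards [hp, ae_eventually_notMem hsum] with x hx hx' hxp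
  obtain ⟨N, hN⟩ := eventually_atTop.1 hx'
  refine ⟨N, fun n hn a ha => ?_⟩
  have h2 := hN n hn
  have h3 : x ∈ ⋃ m ∈ Finset.range (h n + 1), X n m := by
    by_contra hcon
    exact h2 ⟨hxp, hcon⟩
  obtain ⟨m, hm, hxm⟩ := mem_iUnion₂.1 h3
  have h4 : a = m := (hx hxp).2 n a m ha hxm
  rw [h4]
  exact Nat.lt_succ_iff.1 (Finset.mem_range.1 hm)

end Meas

end Pool.Agent.Q307.RF
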