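import Mathlib
import Pool.Agent.Helper669.Dom
import Pool.Agent.Q307.RF.Gen

/-!
# A measure algebra does not change the dominating number
-/

set_option autoImplicit false

namespace Pool.Agent.Q307.RF

open Cardinal Pool.Agent.TH773.PSet Pool.Agent.Helper669.Dom MeasureTheory Set Filter Topology

universe u v w

variable {Ω : Type u} [MeasurableSpace Ω] {μ : Measure Ω}

/-- the name of a function of the ground model -/
def chk (μ : Measure Ω) (f : ℕ → ℕ) : ℕ → ℕ → Set (Cond μ) := fun n m => fground (f n = m)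

theorem meets_chk (f : ℕ → ℕ) (n m : ℕ) : meets (chk μ f n m) = AE μ {_x | f n = m} := by
  unfold chk
  rw [meets_fground, fground_AE]

theorem isFun_chk [IsFiniteMeasure μ] (f : ℕ → ℕ) (p : Cond μ) : p ∈ IsFun (chk μ f) := by
  rw [isFun_iff (fun n m => MeasurableSet.const _) (meets_chk f)]
  refine ae_of_all _ fun x _ => ⟨fun n => ⟨f n, rfl⟩, fun n m m' h h' => ?_⟩
  have h1 : f n = m := h
  have h2 : f n = m' := h'
  exact h1.symm.trans h2

theorem exists_mem (p : Cond μ) {Q : Ω → Prop} (h : ∀ᵐ x ∂μ, x ∈ p.1 → Q x) : ∃ x, Q x := by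
  by_contra hcon
  push Not at hcon
  refine p.2.2 (measure_eq_zero_iff_ae_notMem.2 ?_)
  filter_upwards [h] with x hx hxp using hcon x (hx hxp)

theorem domIs_of [IsFiniteMeasure μ] (p : Cond μ) : p ∈ DomIs (Cond μ) dNum := by
  refine ⟨?_, ?_⟩
  · -- a dominating family of the ground model
    obtain ⟨F, hF, hcard⟩ := exists_dominating
    obtain ⟨e⟩ : Nonempty (dNum.out ≃ F) := Cardinal.eq.1 (by rw [Cardinal.mk_out, hcard])
    refine mem_fex_of (fun y => chk μ (e y).1) fun q _ => ⟨fun y => isFun_chk _ _, fun x => ?_⟩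
    refine mem_fimp.2 fun r hr hx => ?_
    obtain ⟨X, hX, hE⟩ := exists_rep2 x
    obtain ⟨h, hh⟩ := exists_bound hX hE hx
    obtain ⟨f, hf, hdom⟩ := hF h
    refine ⟨r, le_rfl, ?_⟩
    refine mem_fex_of (e.symm ⟨f, hf⟩) fun s hs => ?_
    rw [leStar_iff hX hE (fun n m => MeasurableSet.const _) (meets_chk _)]
    have hs' : ∀ᵐ x ∂μ, x ∈ s.1 → x ∈ r.1 := by
      rw [le_iff_AE, mem_AE_iff] at hs
      exact hs
    obtain ⟨N0, hN0⟩ := eventually_atTop.1 hdom
    filter_upwards [hh, hs'] with x hx1 hx2 hxs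
    obtain ⟨N, hN⟩ := hx1 (hx2 hxs)
    refine ⟨max N N0, fun n hn a b ha hb => ?_⟩
    have h1 := hN n ((le_max_left _ _).trans hn) a ha
    have h2 := hN0 n ((le_max_right _ _).trans hn)
    have h3 : f n = b := by simpa using hb
    omega
  · intro ν hν q hq hex
    obtain ⟨r, hr, E, hE1, hE2⟩ := mem_fex.1 hex q le_rfl
    have h1 : ∀ y, ∃ (X : ℕ → ℕ → Set Ω) (h : ℕ → ℕ), (∀ n m, MeasurableSet (X n m)) ∧
        (∀ n m, meets (E y n m) = AE μ (X n m)) ∧
        ∀ᵐ x ∂μ, x ∈ r.1 → ∃ N, ∀ n, N ≤ n → ∀ a, x ∈ X n a → a ≤ h n := by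
      intro y
      obtain ⟨X, hX, hE⟩ := exists_rep2 (E y)
      obtain ⟨h, hh⟩ := exists_bound hX hE (hE1 y)
      exact ⟨X, h, hX, hE, hh⟩
    choose X h hX hXE hh using h1
    obtain ⟨g, hg⟩ := not_dominating (ι := ν.out) (by rw [Cardinal.mk_out]; exact hν) h
    obtain ⟨s, hs, hs'⟩ := mem_fimp.1 (hE2 (chk μ g)) r le_rfl (isFun_chk g r)
    obtain ⟨t, ht, y, hy⟩ := mem_fex.1 hs' s le_rfl
    rw [leStar_iff (fun n m => MeasurableSet.const _) (meets_chk _) (hX y) (hXE y)] at hy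
    have htr : ∀ᵐ x ∂μ, x ∈ t.1 → x ∈ r.1 := by
      have := ht.trans hs
      rw [le_iff_AE, mem_AE_iff] at this
      exact this
    have hfun := (isFun_iff (hX y) (hXE y) r).1 (hE1 y)
    obtain ⟨x, N, hN, N', hN', hx⟩ : ∃ x, ∃ N, (∀ n, N ≤ n → ∀ a b, g n = a → x ∈ X y n b → a ≤ b) ∧
        ∃ N', (∀ n, N' ≤ n → ∀ a, x ∈ X y n a → a ≤ h y n) ∧ ∀ n, ∃ m, x ∈ X y n m := by
      apply exists_mem t
      filter_upwards [hy, htr, hh y, hfun] with x h1 h2 h3 h4 hxt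
      obtain ⟨N, hN⟩ := h1 hxt
      obtain ⟨N', hN'⟩ := h3 (h2 hxt)
      exact ⟨N, hN, N', hN', (h4 (h2 hxt)).1⟩
    obtain ⟨n, hn1, hn2⟩ := ((hg y).and_eventually (eventually_ge_atTop (max N N'))).exists
    obtain ⟨m, hm⟩ := hx n
    have h5 := hN n ((le_max_left _ _).trans hn2) (g n) m rfl hm
    have h6 := hN' n ((le_max_right _ _).trans hn2) m hm
    omega

end Pool.Agent.Q307.RF
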