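import Mathlib
import Pool.Agent.TH773.PSet.Prod
import Pool.Agent.Q307.RF.Dom

/-!
# Random reals kill the polarized relation
-/

set_option autoImplicit false

namespace Pool.Agent.Q307.RF

open Cardinal Pool.Agent.TH773.PSet Pool.Agent.Helper669.Dom MeasureTheory Set Filter Topology

variable {I : Type}

theorem coin_singleton (v : Bool) : coin {v} = (2 : ENNReal)⁻¹ := by
  unfold coin
  cases v <;> simp [Measure.smul_apply, Measure.add_apply]

/-- The event that the bits of the `j`-th random real with index in `S` are all equal to `v`. -/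
def allEq (j : I) (v : Bool) (S : Finset ℕ) : Set (I × ℕ → Bool) :=
  {x | ∀ n ∈ S, x (j, n) = v}

theorem dep_allEq (j : I) (v : Bool) (S : Finset ℕ) : Dep {t : I × ℕ | t.1 = j} (allEq j v S) := by
  have : allEq j v S = ⋂ n : ℕ, ⋂ (_ : n ∈ S), {x : I × ℕ → Bool | x (j, n) = v} := by
    ext x
    simp [allEq]
  rw [this]
  refine Dep.iInter fun n => Dep.iInter fun _ => ?_
  cases v
  · have h : {x : I × ℕ → Bool | x (j, n) = false} = {x : I × ℕ → Bool | x (j, n) = true}ᶜ := by
      ext x
      simp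
    rw [h]
    exact (dep_coord (T := {t : I × ℕ | t.1 = j}) (t := (j, n)) rfl).compl
  · exact dep_coord (T := {t : I × ℕ | t.1 = j}) (t := (j, n)) rfl

theorem measure_allEq (j : I) (v : Bool) (S : Finset ℕ) :
    coinProduct I (allEq j v S) = (2 : ENNReal)⁻¹ ^ S.card := by
  classical
  let s : Finset (I × ℕ) := S.image fun n => (j, n)
  have hs : allEq j v S = Set.pi s fun _ => {v} := by
    ext x
    simp [allEq, s, Set.mem_pi]
  have hcard : s.card = S.card := by
    rw [Finset.card_image_of_injective]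
    intro a b h
    exact congrArg Prod.snd h
  rw [hs, coinProduct, Measure.infinitePi_pi _ fun _ _ => measurableSet_singleton v,
    Finset.prod_const, coin_singleton, hcard]

/-- If the random set `b` does not depend on the `j`-th random real, then almost surely this
random real is not constant on `b`, if `b` is infinite. -/
theorem null_const {b : ℕ → Set (I × ℕ → Bool)} {T : Set (I × ℕ)} (hb : ∀ n, Dep T (b n))
    (j : I) (hj : ∀ t ∈ T, t.1 ≠ j) (v : Bool) :
    coinProduct I {x | (∀ N, ∃ n, N ≤ n ∧ x ∈ b n) ∧ ∀ n, x ∈ b n → x (j, n) = v} = 0 := by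
  classical
  set Z : Set (I × ℕ → Bool) := {x | (∀ N, ∃ n, N ≤ n ∧ x ∈ b n) ∧ ∀ n, x ∈ b n → x (j, n) = v}
    with hZ
  have hdisj : Disjoint T {t : I × ℕ | t.1 = j} := Set.disjoint_left.2 fun t h1 h2 => hj t h1 h2
  have hZm : MeasurableSet Z := by
    have h1 : Z = (⋂ N : ℕ, ⋃ n : ℕ, ⋃ (_ : N ≤ n), b n) ∩
        ⋂ n : ℕ, ((b n)ᶜ ∪ allEq j v {n}) := by
      ext x
      simp only [hZ, mem_inter_iff, mem_iInter, mem_iUnion, exists_prop, mem_union, mem_compl_iff,
        allEq, mem_ofPred_eq, Finset.mem_singleton, forall_eq]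
      refine and_congr Iff.rfl (forall_congr' fun n => ?_)
      tauto
    rw [h1]
    exact (MeasurableSet.iInter fun N => MeasurableSet.iUnion fun n => MeasurableSet.iUnion fun _ =>
      (hb n).meas).inter (MeasurableSet.iInter fun n => (hb n).meas.compl.union
        (dep_allEq j v _).meas)
  -- the main estimate
  have hD : ∀ N M : ℕ, coinProduct I ({x | N ≤ cnt b x 0 M} ∩ Z) ≤ (2 : ENNReal)⁻¹ ^ N := by
    intro N M
    let J := Finset.Ico 0 M
    let Q : Finset ℕ → Set (I × ℕ → Bool) := fun S => {x | (J.filter fun k => x ∈ b k) = S}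
    have hQd : ∀ S, Dep T (Q S) := fun S => dep_filter hb J S
    have hcov : ({x | N ≤ cnt b x 0 M} ∩ Z) ⊆
        ⋃ S ∈ J.powerset.filter (fun S => N ≤ S.card), Q S ∩ allEq j v S := by
      rintro x ⟨h1, h2⟩
      refine mem_iUnion₂.2 ⟨J.filter fun k => x ∈ b k, ?_, rfl, ?_⟩
      · exact Finset.mem_filter.2 ⟨Finset.mem_powerset.2 (Finset.filter_subset _ _), h1⟩
      · intro k hk
        exact h2.2 k (Finset.mem_filter.1 hk).2
    refine (measure_mono hcov).trans ((measure_biUnion_finset_le _ _).trans ?_)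
    have h1 : ∀ S ∈ J.powerset.filter (fun S => N ≤ S.card),
        coinProduct I (Q S ∩ allEq j v S) ≤ coinProduct I (Q S) * (2 : ENNReal)⁻¹ ^ N := by
      intro S hS
      rw [dep_indep hdisj (hQd S) (dep_allEq j v S), measure_allEq]
      refine mul_le_mul_right ?_ _
      exact pow_le_pow_right_of_le_one' (by simp) (Finset.mem_filter.1 hS).2
    refine (Finset.sum_le_sum h1).trans ?_
    rw [← Finset.sum_mul]
    have h2 : ∑ S ∈ J.powerset.filter (fun S => N ≤ S.card), coinProduct I (Q S) ≤ 1 := by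
      rw [← measure_biUnion_finset ?_ fun S _ => (hQd S).meas]
      · exact prob_le_one
      · intro S _ S' _ hne
        refine Set.disjoint_left.2 fun x h3 h4 => hne ?_
        rw [← h3, ← h4]
    calc _ ≤ 1 * (2 : ENNReal)⁻¹ ^ N := mul_le_mul_left h2 _
      _ = _ := one_mul _
  have hlim : ∀ N : ℕ, coinProduct I Z ≤ (2 : ENNReal)⁻¹ ^ N := by
    intro N
    have h1 : Z = ⋃ M, ({x | N ≤ cnt b x 0 M} ∩ Z) := by
      ext x
      simp only [mem_iUnion, mem_inter_iff, mem_ofPred_eq]
      constructor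
      · intro hx
        obtain ⟨M, hM⟩ := cnt_unbounded hx.1 0 N
        exact ⟨M, hM, hx⟩
      · rintro ⟨M, -, hx⟩
        exact hx
    rw [h1, Monotone.measure_iUnion]
    · exact iSup_le fun M => hD N M
    · intro M M' hM x hx
      exact ⟨le_trans hx.1 (cnt_mono b x 0 hM), hx.2⟩
  have h2 := ENNReal.tendsto_pow_atTop_nhds_zero_of_lt_one
    (r := (2 : ENNReal)⁻¹) (ENNReal.inv_lt_one.2 (by norm_num))
  exact le_antisymm (ge_of_tendsto' h2 hlim) bot_le

/-- The colouring given by the random reals. -/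
def col {K : Type} (i : K → I) (k : K) (n : ℕ) : Set (Random I) :=
  AE (coinProduct I) (allEq (i k) true {n})

theorem not_polarized {K : Type} (hK : ℵ₀ < #K) (hKI : #K ≤ #I) (p : Random I) :
    p ∈ fnot (Polarized (Random I) K) := by
  classical
  intro q hq hpol
  obtain ⟨i⟩ := (Cardinal.le_def _ _).1 hKI
  obtain ⟨r, hr, A, hr'⟩ := mem_fex.1 (hpol (col i)) q le_rfl
  obtain ⟨r1, hr1, B, hfull, hinf, hdis⟩ := mem_fex.1 hr' r le_rfl
  obtain ⟨X, hX, hXB⟩ := exists_rep (μ := coinProduct I) B
  choose T hTc hT using fun n => exists_countable (hX n)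
  have hdep : ∀ n, Dep (⋃ n, T n) (X n) := fun n => (hT n).mono (subset_iUnion T n)
  let C : Set K := {k | ∃ t ∈ ⋃ n, T n, t.1 = i k}
  have hC : C.Countable := by
    have h1 : C ⊆ i ⁻¹' (Prod.fst '' ⋃ n, T n) := by
      rintro k ⟨t, ht, h⟩
      exact ⟨t, ht, h⟩
    exact (((countable_iUnion hTc).image _).preimage_of_injOn i.injective.injOn).mono h1
  have hinf' : ∀ᵐ x ∂(coinProduct I), x ∈ r1.1 → ∀ N, ∃ n, N ≤ n ∧ x ∈ X n := by
    have h1 : r1 ∈ Inf (hat (coinProduct I) X) := by
      have e : Inf B = Inf (hat (coinProduct I) X) := by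
        unfold Inf
        simp only [hXB, meets_hat hX]
      rw [← e]
      exact hinf
    rw [inf_hat hX, mem_AE_iff] at h1
    exact h1
  have hcolm : ∀ k n, MeasurableSet (allEq (i k) true {n} : Set (I × ℕ → Bool)) := fun k n =>
    (dep_allEq _ _ _).meas
  obtain ⟨s0, hs0, hcase⟩ := mem_disj.1 hdis r1 le_rfl
  have hfull' : s0 ∈ FullSize A := (reg_fex _).1 _ hfull _ hs0
  obtain ⟨s, hs, y, hyC, hyA⟩ := exists_outside (ccc_cond.{0, 0} (μ := coinProduct I)) hK hfull' hC
  have hj : ∀ t ∈ ⋃ n, T n, t.1 ≠ i y := fun t ht h => hyC ⟨t, ht, h⟩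
  have hsr : ∀ᵐ x ∂(coinProduct I), x ∈ s.1 → x ∈ r1.1 := by
    have := hs.trans hs0
    rw [le_iff_AE, mem_AE_iff] at this
    exact this
  -- the bits on the set `B`
  have key : ∃ v : Bool, ∀ n, ∀ᵐ x ∂(coinProduct I), x ∈ s.1 → x ∈ X n → x (i y, n) = v := by
    rcases hcase with h | h
    · refine ⟨true, fun n => ?_⟩
      have h1 := (reg_fimp (ψ := meets (col i y n)) (down_fand (down_meets (A y))
        (down_meets (B n)))).1 _ (h y n) s hs
      have h2 : ∀ t ≤ s, t ∈ meets (B n) → t ∈ meets (col i y n) := fun t ht htB =>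
        (mem_fimp_reg (down_fand (down_meets (A y)) (down_meets (B n))) (reg_meets _)).1 h1 t ht
          ⟨down_meets _ _ hyA _ ht, htB⟩
      have h3 : s ∈ fimp (AE (coinProduct I) (X n)) (AE (coinProduct I) (allEq (i y) true {n})) := by
        rw [mem_fimp_reg (down_AE _) (by rw [← meets_AE (hcolm y n)]; exact reg_meets _)]
        intro t ht htX
        have := h2 t ht (by rw [hXB]; exact htX)
        unfold col at this
        rwa [meets_AE (hcolm y n)] at this
      rw [fimp_AE (hX n) (hcolm y n), mem_AE_iff] at h3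
      filter_upwards [h3] with x hx hxs hxX
      rcases hx hxs with h4 | h4
      · exact absurd hxX h4
      · exact h4 n (Finset.mem_singleton_self n)
    · refine ⟨false, fun n => ?_⟩
      have h1 := (reg_fimp (ψ := fnot (meets (col i y n))) (down_fand (down_meets (A y))
        (down_meets (B n)))).1 _ (h y n) s hs
      have h2 : ∀ t ≤ s, t ∈ meets (B n) → t ∈ fnot (meets (col i y n)) := fun t ht htB =>
        (mem_fimp_reg (down_fand (down_meets (A y)) (down_meets (B n)))
          (reg_fnot (down_meets _))).1 h1 t ht ⟨down_meets _ _ hyA _ ht, htB⟩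
      have h3 : s ∈ fimp (AE (coinProduct I) (X n))
          (AE (coinProduct I) (allEq (i y) true {n})ᶜ) := by
        rw [mem_fimp_reg (down_AE _) (by
          rw [← meets_AE (hcolm y n).compl]
          exact reg_meets _)]
        intro t ht htX
        have := h2 t ht (by rw [hXB]; exact htX)
        unfold col at this
        rwa [meets_AE (hcolm y n), fnot_AE (hcolm y n)] at this
      rw [fimp_AE (hX n) (hcolm y n).compl, mem_AE_iff] at h3
      filter_upwards [h3] with x hx hxs hxX
      rcases hx hxs with h4 | h4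
      · exact absurd hxX h4
      · have h5 : ¬ (x (i y, n) = true) := fun h6 => h4 (by
          intro m hm
          rw [Finset.mem_singleton.1 hm]
          exact h6)
        simpa using h5
  obtain ⟨v, hv⟩ := key
  refine s.2.2 (measure_mono_null_ae ?_ (null_const hdep (i y) hj v))
  filter_upwards [hinf', hsr, ae_all_iff.2 hv] with x h1 h2 h3 hxs
  exact ⟨h1 (h2 hxs), fun n hn => h3 n hxs hn⟩

end Pool.Agent.Q307.RF
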